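import Pool.Agent.H500.HC.Stm

set_option autoImplicit false
set_option linter.unusedSectionVars false

/-!
# Part B6 (norms) of project HC
-/

namespace Pool.Agent.H115.HC.Nrm

open NumberField IsDedekindDomain
open Pool.Agent.H500.HC

section Unram
variable {E : Type} [Field E] [NumberField E]

lemma not_mem_sq (lam : HeightOneSpectrum (𝓞 E)) (hp : (Ideal.absNorm lam.asIdeal).Prime)
    (hB : (discr E).natAbs < Ideal.absNorm lam.asIdeal) :
    ((Ideal.absNorm lam.asIdeal : ℕ) : 𝓞 E) ∉ lam.asIdeal ^ 2 := by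
  intro h
  have hpi : Prime ((Ideal.absNorm lam.asIdeal : ℕ) : ℤ) := Nat.prime_iff_prime_int.1 hp
  have : (Ideal.span {((Ideal.absNorm lam.asIdeal : ℕ) : ℤ)}).IsPrime :=
    (Ideal.span_singleton_prime hpi.ne_zero).2 hpi
  have hne : Ideal.span {((Ideal.absNorm lam.asIdeal : ℕ) : ℤ)} ≠ ⊥ := by
    rw [Ne, Ideal.span_singleton_eq_bot]
    exact hpi.ne_zero
  have : (Ideal.span {((Ideal.absNorm lam.asIdeal : ℕ) : ℤ)}).IsMaximal :=
    Ideal.IsPrime.isMaximal inferInstance hne
  have h1 := pow_sub_one_dvd_differentIdeal ℤ lam.asIdeal 2 hne (by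
    rw [Ideal.dvd_iff_le, Ideal.map_span, Set.image_singleton, Ideal.span_singleton_le_iff_mem]
    simpa using h)
  rw [show (2 - 1 : ℕ) = 1 from rfl, pow_one] at h1
  have h2 := map_dvd Ideal.absNorm h1
  rw [absNorm_differentIdeal (K := E)] at h2
  have h3 : 0 < (discr E).natAbs := Int.natAbs_pos.2 (discr_ne_zero E)
  exact absurd (Nat.le_of_dvd h3 h2) (not_le.2 hB)

end Unram

section Norm
variable {K E : Type} [Field K] [NumberField K] [Field E] [NumberField E] [Algebra K E]

lemma fd : FiniteDimensional K E := Module.Finite.of_restrictScalars_finite ℚ K E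

/-- positivity of norms -/
lemma pos_norm (y : E) (hy0 : y ≠ 0) (hy : ∀ τ : E →+* ℝ, 0 < τ y) (τ : K →+* ℝ) :
    0 < τ (Algebra.norm K y) := by
  classical
  have := fd (K := K) (E := E)
  let t : K →+* ℂ := (algebraMap ℝ ℂ).comp τ
  let _ : Algebra K ℂ := t.toAlgebra
  have h1 := Algebra.norm_eq_prod_embeddings K ℂ y
  have hbar : ∀ φ : E →ₐ[K] ℂ, ∀ c : K, (starRingEnd ℂ) (φ (algebraMap K E c)) =
      algebraMap K ℂ c := by
    intro φ c
    rw [φ.commutes]
    change (starRingEnd ℂ) ((τ c : ℝ) : ℂ) = ((τ c : ℝ) : ℂ)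
    exact Complex.conj_ofReal _
  let cj : (E →ₐ[K] ℂ) → (E →ₐ[K] ℂ) := fun φ =>
    { (starRingEnd ℂ).comp (φ : E →+* ℂ) with
      commutes' := fun c => hbar φ c }
  have hcj : ∀ φ x, cj φ x = (starRingEnd ℂ) (φ x) := fun φ x => rfl
  have hne : ∀ φ : E →ₐ[K] ℂ, φ y ≠ 0 := fun φ => by
    rw [Ne, map_eq_zero]
    exact hy0
  have hone : ∏ φ : E →ₐ[K] ℂ, (φ y / (‖φ y‖ : ℂ)) = 1 := by
    refine Finset.prod_involution (fun φ _ => cj φ) ?_ ?_ (fun _ _ => Finset.mem_univ _) ?_
    · intro φ _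
      have hn : (‖φ y‖ : ℂ) ≠ 0 := by
        simpa using hne φ
      rw [hcj, RCLike.norm_conj, div_mul_div_comm, Complex.mul_conj, ← Complex.ofReal_mul,
        Complex.normSq_eq_norm_sq, sq, div_self]
      rw [Complex.ofReal_mul]
      exact mul_ne_zero hn hn
    · intro φ _ h1 h2
      apply h1
      have hreal : ∀ x, (φ x).im = 0 := by
        intro x
        rw [← Complex.conj_eq_iff_im, ← hcj, h2]
      let ρ : E →+* ℝ :=
        { toFun := fun x => (φ x).re
          map_one' := by simp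
          map_zero' := by simp
          map_add' := fun a b => by simp
          map_mul' := fun a b => by simp [hreal] }
      have h3 : 0 < (φ y).re := hy ρ
      have h4 : φ y = ((φ y).re : ℂ) := by
        apply Complex.ext
        · simp
        · simp [hreal]
      rw [h4, Complex.norm_real, Real.norm_of_nonneg h3.le, div_self]
      exact_mod_cast h3.ne'
    · intro φ _
      ext x
      rw [hcj, hcj, Complex.conj_conj]
  have h2 : (algebraMap K ℂ) (Algebra.norm K y) = ((∏ φ : E →ₐ[K] ℂ, ‖φ y‖ : ℝ) : ℂ) := by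
    rw [h1, ← mul_one (((∏ φ : E →ₐ[K] ℂ, ‖φ y‖ : ℝ) : ℂ)), ← hone, Complex.ofReal_prod,
      ← Finset.prod_mul_distrib]
    refine Finset.prod_congr rfl fun φ _ => ?_
    have hn : (‖φ y‖ : ℂ) ≠ 0 := by
      simpa using hne φ
    field_simp
  have h3 : ((τ (Algebra.norm K y) : ℝ) : ℂ) = ((∏ φ : E →ₐ[K] ℂ, ‖φ y‖ : ℝ) : ℂ) := h2
  rw [Complex.ofReal_inj] at h3
  rw [h3]
  exact Finset.prod_pos fun φ _ => norm_pos_iff.2 (hne φ)

/-- congruence for a product -/
lemma prod_congr_one {R ι : Type} [CommRing R] (s : Finset ι) (M : R) (f : ι → R)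
    (h : ∀ i ∈ s, M ∣ f i - 1) : M ∣ (∏ i ∈ s, f i) - 1 := by
  classical
  induction s using Finset.induction_on with
  | empty => simp
  | insert a s ha ih =>
    rw [Finset.prod_insert ha]
    have h1 := h a (Finset.mem_insert_self _ _)
    have h2 := ih fun i hi => h i (Finset.mem_insert_of_mem hi)
    have : f a * ∏ i ∈ s, f i - 1 = f a * (∏ i ∈ s, f i - 1) + (f a - 1) := by ring
    rw [this]
    exact dvd_add (h2.mul_left _) h1

lemma norm_congr (y : 𝓞 E) (M : ℕ) (hM : 0 < M) (h : (M : 𝓞 E) ∣ y - 1) :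
    (M : 𝓞 K) ∣ RingOfIntegers.norm K y - 1 := by
  classical
  have := fd (K := K) (E := E)
  let Ω := AlgebraicClosure K
  have h1 := Algebra.norm_eq_prod_embeddings K Ω (y : E)
  -- work in the integral closure of `ℤ` in `Ω`
  let f : (E →ₐ[K] Ω) → integralClosure ℤ Ω := fun φ =>
    ⟨φ (y : E), (RingOfIntegers.isIntegral_coe y).map (φ.restrictScalars ℤ)⟩
  obtain ⟨z, hz⟩ := h
  have h2 : ∀ φ ∈ (Finset.univ : Finset (E →ₐ[K] Ω)),
      ((M : ℕ) : integralClosure ℤ Ω) ∣ f φ - 1 := by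
    intro φ _
    refine ⟨⟨φ (z : E), (RingOfIntegers.isIntegral_coe z).map (φ.restrictScalars ℤ)⟩, ?_⟩
    apply Subtype.ext
    have : ((y - 1 : 𝓞 E) : E) = ((M : 𝓞 E) * z : 𝓞 E) := by rw [hz]
    push_cast at this ⊢
    have h3 := congrArg φ this
    rw [map_sub, map_one, map_mul, map_natCast] at h3
    exact h3
  obtain ⟨w, hw⟩ := prod_congr_one Finset.univ ((M : ℕ) : integralClosure ℤ Ω) f h2
  have h3 : algebraMap K Ω (Algebra.norm K (y : E)) - 1 = (M : Ω) * (w : Ω) := by
    rw [h1]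
    have := congrArg (Subtype.val) hw
    push_cast at this
    exact this
  have hM' : (M : K) ≠ 0 := by exact_mod_cast hM.ne'
  have hint : IsIntegral ℤ ((Algebra.norm K (y : E) - 1) / (M : K)) := by
    rw [← isIntegral_algebraMap_iff (algebraMap K Ω).injective (R := ℤ) (B := Ω)]
    have : algebraMap K Ω ((Algebra.norm K (y : E) - 1) / (M : K)) = (w : Ω) := by
      rw [map_div₀, map_sub, map_one, h3, map_natCast, mul_div_cancel_left₀]
      exact_mod_cast hM.ne'
    rw [this]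
    exact w.2
  refine ⟨⟨_, hint⟩, ?_⟩
  apply RingOfIntegers.ext
  push_cast
  change Algebra.norm K (y : E) - 1 = (M : K) * ((Algebra.norm K (y : E) - 1) / (M : K))
  field_simp

/-- `y` divides its norm -/
lemma dvd_norm (y : 𝓞 E) (hy : y ≠ 0) :
    y ∣ algebraMap (𝓞 K) (𝓞 E) (RingOfIntegers.norm K y) := by
  classical
  have := fd (K := K) (E := E)
  let Ω := AlgebraicClosure E
  have h1 := Algebra.norm_eq_prod_embeddings K Ω (y : E)
  let φ0 : E →ₐ[K] Ω := IsScalarTower.toAlgHom K E Ω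
  have hy0 : (y : E) ≠ 0 := by exact_mod_cast hy
  have hint : IsIntegral ℤ (algebraMap K E (Algebra.norm K (y : E)) / (y : E)) := by
    rw [← isIntegral_algebraMap_iff (algebraMap E Ω).injective (R := ℤ) (B := Ω)]
    have h2 : algebraMap E Ω (algebraMap K E (Algebra.norm K (y : E)) / (y : E)) =
        ∏ φ ∈ Finset.univ.erase φ0, φ (y : E) := by
      rw [map_div₀, ← IsScalarTower.algebraMap_apply K E Ω, h1,
        ← Finset.mul_prod_erase _ _ (Finset.mem_univ φ0)]
      change (algebraMap E Ω (y : E) * _) / (algebraMap E Ω (y : E)) = _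
      rw [mul_div_cancel_left₀]
      rw [Ne, map_eq_zero]
      exact hy0
    rw [h2]
    exact IsIntegral.prod _ fun φ _ =>
      (RingOfIntegers.isIntegral_coe y).map (φ.restrictScalars ℤ)
  refine ⟨⟨_, hint⟩, ?_⟩
  apply RingOfIntegers.ext
  change algebraMap K E (Algebra.norm K (y : E)) =
    (y : E) * (algebraMap K E (Algebra.norm K (y : E)) / (y : E))
  field_simp

end Norm

theorem main : S_Crt → S_Nrm := by
  intro hCrt K E _ _ _ _ hcard
  obtain ⟨B0, hB0⟩ := hCrt K E hcard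
  refine ⟨max B0 (discr E).natAbs, ?_⟩
  intro lam y M hlam hp hB hM hy σ
  have hBa : B0 < Ideal.absNorm lam.asIdeal := lt_of_le_of_lt (le_max_left _ _) hB
  have hBb : (discr E).natAbs < Ideal.absNorm lam.asIdeal := lt_of_le_of_lt (le_max_right _ _) hB
  let _ : Algebra K E := σ.toAlgebra
  have _ := fd (K := K) (E := E)
  obtain ⟨hy0, hy1, hy2⟩ := hy
  set x : 𝓞 K := RingOfIntegers.norm K y with hx
  have hy0' : (y : E) ≠ 0 := by exact_mod_cast hy0
  have hxK : (x : K) = Algebra.norm K (y : E) := rfl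
  have hx0 : x ≠ 0 := by
    intro h
    have h1 : (x : K) = 0 := by rw [h]; rfl
    rw [hxK, Algebra.norm_eq_zero_iff] at h1
    exact hy0' h1
  have hnorm : Ideal.absNorm (Ideal.span {x}) = Ideal.absNorm lam.asIdeal := by
    rw [hlam, Ideal.absNorm_span_singleton, Ideal.absNorm_span_singleton]
    congr 1
    have h1 : ((Algebra.norm ℤ x : ℤ) : ℚ) = ((Algebra.norm ℤ y : ℤ) : ℚ) := by
      rw [Algebra.coe_norm_int, Algebra.coe_norm_int, hxK, Algebra.norm_norm]
    exact_mod_cast h1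
  have hprime : (Ideal.span {x}).IsPrime := by
    apply Ideal.isPrime_of_irreducible_absNorm
    rw [hnorm]
    exact hp
  have hbot : Ideal.span {x} ≠ ⊥ := by
    rw [Ne, Ideal.span_singleton_eq_bot]
    exact hx0
  have hem : em σ x = algebraMap (𝓞 K) (𝓞 E) x := rfl
  have hydvd : y ∣ em σ x := by
    rw [hem]
    exact dvd_norm y hy0
  have hmem : em σ x ∈ lam.asIdeal := by
    rw [hlam, Ideal.mem_span_singleton]
    exact hydvd
  have hmax : (Ideal.span {x}).IsMaximal := hprime.isMaximal hbot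
  have hcomap : ∀ τ : K →+* E, em τ x ∈ lam.asIdeal →
      Ideal.comap (RingOfIntegers.mapRingHom τ) lam.asIdeal = Ideal.span {x} := by
    intro τ hτ
    symm
    refine hmax.eq_of_le ?_ ?_
    · have := lam.isPrime
      exact (Ideal.IsPrime.comap (RingOfIntegers.mapRingHom τ)).ne_top
    · rw [Ideal.span_singleton_le_iff_mem, Ideal.mem_comap]
      exact hτ
  refine ⟨⟨Ideal.span {x}, hprime, hbot⟩, x, rfl, ⟨hx0, norm_congr y M hM hy1, ?_⟩, hnorm, hmem,
    ?_, ?_⟩
  · intro τ
    rw [hxK]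
    exact pos_norm (y : E) hy0' hy2 τ
  · intro h2
    apply not_mem_sq lam hp hBb
    have h3 : ((Ideal.absNorm (Ideal.span {x}) : ℕ) : 𝓞 K) ∈ Ideal.span {x} :=
      Ideal.absNorm_mem _
    rw [hnorm, Ideal.mem_span_singleton] at h3
    have h4 := map_dvd (RingOfIntegers.mapRingHom σ) h3
    rw [map_natCast] at h4
    exact Ideal.mem_of_dvd _ h4 h2
  · intro τ hτσ hτ
    have h1 := hcomap τ hτ
    have h2 := hcomap σ hmem
    classical
    have hl : ¬ Ideal.absNorm lam.asIdeal ∣ 1 := by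
      rw [Nat.dvd_one]
      exact hp.one_lt.ne'
    obtain ⟨y', -, hy'⟩ := (hB0 lam hp hBa).2 1 one_pos hl (fun ρ => if ρ = σ then 0 else 1)
    have h3 := hy' σ
    have h4 := hy' τ
    simp only [if_true, if_neg hτσ] at h3 h4
    have h5 : y' ∈ Ideal.comap (RingOfIntegers.mapRingHom σ) lam.asIdeal := by
      rw [Ideal.mem_comap]
      simpa using h3
    rw [h2, ← h1, Ideal.mem_comap] at h5
    have h6 : (1 : 𝓞 E) ∈ lam.asIdeal := by
      have h7 := lam.asIdeal.sub_mem h5 h4
      simpa using h7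
    exact lam.isPrime.ne_top ((Ideal.eq_top_iff_one _).2 h6)

end Pool.Agent.H115.HC.Nrm
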